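import Pool.Agent.Helper79.GL4.GoalsB
import Pool.Agent.Helper79.GL4.GoalsA

/-!
# GL4: packet BLK (MP_27a5f8_al)
-/

namespace GL4.PkBLK

open Module Submodule

section
variable {F : Type} [Field F] {V : Type} [AddCommGroup V] [Module F V]

/-- the points of a subspace -/
def S (U : Submodule F V) : Set (Submodule F V) := {R | Pt R ∧ R ≤ U}

theorem ncard_S [Finite F] [FiniteDimensional F V] (U : Submodule F V) :
    (S U).ncard = br (Nat.card F) (finrank F U) := by
  rw [← card_pts_le U, ← Nat.card_coe_set_eq]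
  rfl

theorem ncard_S_diff [Finite F] [FiniteDimensional F V] {U P : Submodule F V} (hP : Pt P)
    (hU : P ≤ U) {k : ℕ} (hk : finrank F U = k + 1) :
    Nat.card (S U \ {P} : Set (Submodule F V)) = Nat.card F * br (Nat.card F) k := by
  have h1 : P ∈ S U := ⟨hP, hU⟩
  have h2 := Set.ncard_sdiff_singleton_add_one h1 (Set.toFinite _)
  rw [ncard_S, hk, br_succ'] at h2
  rw [Nat.card_coe_set_eq]
  omega

theorem exists_pt_ln [FiniteDimensional F V] (h : 3 ≤ finrank F V) :
    ∃ P L : Submodule F V, Pt P ∧ Ln L ∧ P ≤ L := by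
  have h1 : (⊤ : Submodule F V) ≠ ⊥ := by
    intro hc
    have h2 : finrank F (⊤ : Submodule F V) = 0 := by rw [hc, finrank_bot]
    rw [finrank_top] at h2
    omega
  obtain ⟨P, hP, -⟩ := exists_pt_le h1
  have h3 : ¬ (⊤ : Submodule F V) ≤ P := by
    intro hc
    have h4 : P = ⊤ := eq_top_iff.2 hc
    rw [Pt, h4, finrank_top] at hP
    omega
  obtain ⟨Q, hQ, -, hQP⟩ := exists_pt_not_le h3
  refine ⟨P, P ⊔ Q, hP, ln_sup hP hQ ?_, le_sup_left⟩
  rintro rfl
  exact hQP le_rfl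

end

theorem thm (h : GL4.TRZ) : GL4.BLK := by
  intro F _ _ V _ _ _ K hn hT Z e he hen hEq hZ h3
  have hPP := (h F V K hn hT Z hEq (fun P L hP hL hPL => (hZ P L hP hL hPL).1)).2
  have key : ∀ P L P' M, Pt P → Ln L → P ≤ L → Pt P' → Ln M → P' ≤ M → M ≤ Z P L →
      Z P' M = Z P L := by
    intro P L P' M hP hL hPL hP' hM hPM hML
    by_cases hc : M ⊓ L = ⊥
    · have hne : P ≠ P' := by
        rintro rfl
        exact hP.ne_bot (le_bot_iff.1 (hc ▸ le_inf hPM hPL))
      have hL' : Ln (P ⊔ P') := ln_sup hP hP' hne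
      have hle : P ⊔ P' ≤ Z P L :=
        sup_le (hPL.trans (hZ P L hP hL hPL).1) (hPM.trans hML)
      have e1 : Z P (P ⊔ P') = Z P L := h3 P L (P ⊔ P') hP hL hL' hPL le_sup_left hle
      have e2 : Z P (P ⊔ P') = Z P' (P ⊔ P') := hPP P P' (P ⊔ P') hP hP' hL' le_sup_left le_sup_right
      have e3 : Z P' M = Z P' (P ⊔ P') := by
        refine h3 P' (P ⊔ P') M hP' hL' hM le_sup_right hPM ?_
        rw [← e2, e1]
        exact hML
      rw [e3, ← e2, e1]
    · obtain ⟨x, hx, hxl⟩ := exists_pt_le hc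
      have e1 : Z P' M = Z x M := hPP P' x M hP' hx hM hPM (hxl.trans inf_le_left)
      have e2 : Z P L = Z x L := hPP P x L hP hx hL hPL (hxl.trans inf_le_right)
      rw [e1, e2]
      refine h3 x L M hx hL hM (hxl.trans inf_le_right) (hxl.trans inf_le_left) ?_
      rw [← e2]
      exact hML
  refine ⟨key, ?_, ?_⟩
  · intro P L hP hL hPL
    have key2 := fun P' M => key P L P' M hP hL hPL
    generalize Z P L = b at key2 ⊢
    intro x y x' y' hx hy hx' hy' hxy hxy'
    have inj : ∀ u v : Submodule F b, u.map b.subtype = v.map b.subtype → u = v := by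
      intro u v huv
      rw [← restr_incl u, huv, restr_incl]
    have pt : ∀ u : Submodule F b, Pt u → Pt (u.map b.subtype) := by
      intro u hu
      rw [Pt, finrank_incl]
      exact hu
    have hX := pt x hx
    have hY := pt y hy
    have hX' := pt x' hx'
    have hY' := pt y' hy'
    have hXY : x.map b.subtype ≠ y.map b.subtype := fun hc => hxy (inj _ _ hc)
    have hXY' : x'.map b.subtype ≠ y'.map b.subtype := fun hc => hxy' (inj _ _ hc)
    obtain ⟨k, hk, k1, k2⟩ := hT _ _ _ _ hX hY hX' hY' hXY hXY'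
    have b1 : Z (x.map b.subtype) (x.map b.subtype ⊔ y.map b.subtype) = b :=
      key2 _ _ hX (ln_sup hX hY hXY) le_sup_left (sup_le (incl_le _) (incl_le _))
    have b2 : Z (x'.map b.subtype) (x'.map b.subtype ⊔ y'.map b.subtype) = b :=
      key2 _ _ hX' (ln_sup hX' hY' hXY') le_sup_left (sup_le (incl_le _) (incl_le _))
    have b3 : im k b = b := by
      have e1 := hEq k hk _ _ hX (ln_sup hX hY hXY) le_sup_left
      rw [b1, im_sup, k1, k2, b2] at e1
      exact e1.symm
    obtain ⟨g, hg, hgk⟩ := exists_sGrp hk b3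
    refine ⟨g, hg, inj _ _ ?_, inj _ _ ?_⟩
    · rw [im_incl hgk, k1]
    · rw [im_incl hgk, k2]
  · obtain ⟨P0, L0, hP0, hL0, hPL0⟩ := exists_pt_ln hn
    set b := Z P0 L0 with hb
    have hbd : finrank F b = e + 1 := (hZ P0 L0 hP0 hL0 hPL0).2
    have hbt : ¬ (⊤ : Submodule F V) ≤ b := by
      intro hc
      rw [eq_top_iff.2 hc, finrank_top] at hbd
      omega
    obtain ⟨P, hP, -, hPb⟩ := exists_pt_not_le hbt
    have hne : ∀ Q : S b, P ≠ Q.1 := by
      rintro ⟨Q, hQ⟩ rfl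
      exact hPb hQ.2
    have hln : ∀ Q : S b, Ln (P ⊔ Q.1) := fun Q => ln_sup hP Q.2.1 (hne Q)
    have hB : ∀ Q : S b, P ⊔ Q.1 ≤ Z P (P ⊔ Q.1) ∧ finrank F (Z P (P ⊔ Q.1)) = e + 1 :=
      fun Q => hZ P _ hP (hln Q) le_sup_left
    have inj1 : ∀ (Q Q' : S b) (R : Submodule F V), Pt R → R ≠ P → R ≤ Z P (P ⊔ Q.1) →
        R ≤ Z P (P ⊔ Q'.1) → Q = Q' := by
      intro Q Q' R hR hRP h1 h2
      have hl : Ln (P ⊔ R) := ln_sup hP hR (Ne.symm hRP)
      have e1 : Z P (P ⊔ R) = Z P (P ⊔ Q.1) :=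
        key P _ P _ hP (hln Q) le_sup_left hP hl le_sup_left
          (sup_le (le_sup_left.trans (hB Q).1) h1)
      have e2 : Z P (P ⊔ R) = Z P (P ⊔ Q'.1) :=
        key P _ P _ hP (hln Q') le_sup_left hP hl le_sup_left
          (sup_le (le_sup_left.trans (hB Q').1) h2)
      by_contra hc
      have hQQ : Q.1 ≠ Q'.1 := fun hh => hc (Subtype.ext hh)
      have hl2 : Ln (Q.1 ⊔ Q'.1) := ln_sup Q.2.1 Q'.2.1 hQQ
      have e3 : Z Q.1 (Q.1 ⊔ Q'.1) = b :=
        key P0 L0 _ _ hP0 hL0 hPL0 Q.2.1 hl2 le_sup_left (sup_le Q.2.2 Q'.2.2)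
      have e4 : Z Q.1 (Q.1 ⊔ Q'.1) = Z P (P ⊔ Q.1) := by
        refine key P _ _ _ hP (hln Q) le_sup_left Q.2.1 hl2 le_sup_left (sup_le ?_ ?_)
        · exact le_sup_right.trans (hB Q).1
        · rw [← e1, e2]
          exact le_sup_right.trans (hB Q').1
      apply hPb
      rw [← e3, e4]
      exact le_sup_left.trans (hB Q).1
    obtain ⟨m, hm⟩ : ∃ m, finrank F V = m + 1 := ⟨finrank F V - 1, by omega⟩
    have htop : finrank F (⊤ : Submodule F V) = m + 1 := by rw [finrank_top, hm]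
    let f : (Σ Q : S b, (S (Z P (P ⊔ Q.1)) \ {P} : Set (Submodule F V))) →
        (S (⊤ : Submodule F V) \ {P} : Set (Submodule F V)) :=
      fun x => ⟨x.2.1, ⟨x.2.2.1.1, le_top⟩, x.2.2.2⟩
    have hf : Function.Injective f := by
      rintro ⟨Q, R, hR⟩ ⟨Q', R', hR'⟩ hx
      have hRR : R = R' := congrArg Subtype.val hx
      subst hRR
      have hQQ : Q = Q' := inj1 Q Q' R hR.1.1 (fun hh => hR.2 hh) hR.1.2 hR'.1.2
      subst hQQ
      rfl
    have hcard := Nat.card_le_card_of_injective f hf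
    have : Fintype (S b) := Fintype.ofFinite _
    rw [Nat.card_sigma, ncard_S_diff hP le_top htop] at hcard
    have hterm : ∀ Q : S b, Nat.card (S (Z P (P ⊔ Q.1)) \ {P} : Set (Submodule F V)) =
        Nat.card F * br (Nat.card F) e := fun Q =>
      ncard_S_diff hP (le_sup_left.trans (hB Q).1) (hB Q).2
    rw [Finset.sum_congr rfl fun Q _ => hterm Q, Finset.sum_const, Finset.card_univ, smul_eq_mul,
      ← Nat.card_eq_fintype_card, Nat.card_coe_set_eq, ncard_S, hbd] at hcard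
    have hq : 0 < Nat.card F := Nat.card_pos
    rw [show finrank F V - 1 = m by omega]
    refine Nat.le_of_mul_le_mul_left ?_ hq
    calc Nat.card F * (br (Nat.card F) (e + 1) * br (Nat.card F) e) =
        br (Nat.card F) (e + 1) * (Nat.card F * br (Nat.card F) e) := by ring
      _ ≤ _ := hcard

end GL4.PkBLK
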