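import Pool.Agent.Helper79.GL4.GoalsR

/-!
# GL4: packet PCH (MP_27a5f8_al)
-/

namespace GL4.PkPCH

open Module Submodule

/-- the permutation representation on functions -/
noncomputable def pr (G X : Type) [Group G] [MulAction G X] : Representation ℂ G (X → ℂ) where
  toFun g :=
    { toFun := fun f x => f (g⁻¹ • x)
      map_add' := fun f f' => rfl
      map_smul' := fun c f => rfl }
  map_one' := by
    ext f x
    simp
  map_mul' g h := by
    ext f x
    simp [mul_smul]

theorem pr_apply (G X : Type) [Group G] [MulAction G X] (g : G) (f : X → ℂ) (x : X) :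
    pr G X g f x = f (g⁻¹ • x) := rfl

theorem pr_char (G X : Type) [Group G] [Finite X] [MulAction G X] :
    (pr G X).character = pc G X := by
  classical
  have := Fintype.ofFinite X
  ext g
  rw [Representation.character, LinearMap.trace_eq_matrix_trace ℂ (Pi.basisFun ℂ X),
    Matrix.trace, pc]
  have h1 : ∀ i : X, (LinearMap.toMatrix (Pi.basisFun ℂ X) (Pi.basisFun ℂ X) (pr G X g)).diag i =
      if g • i = i then 1 else 0 := by
    intro i
    rw [Matrix.diag_apply, LinearMap.toMatrix_apply]
    simp only [Pi.basisFun_apply, Pi.basisFun_repr, pr_apply]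
    rw [Pi.single_apply]
    congr 1
    rw [inv_smul_eq_iff]
    exact propext ⟨Eq.symm, Eq.symm⟩
  rw [Finset.sum_congr rfl fun i _ => h1 i, Finset.sum_boole]
  congr 1
  rw [Nat.card_eq_fintype_card, ← Set.toFinset_card]
  congr 1
  ext x
  simp [MulAction.mem_fixedBy]

theorem burn (G X : Type) [Group G] [Finite G] [Finite X] [MulAction G X] :
    ∑ᶠ g : G, (Nat.card (MulAction.fixedBy X g) : ℂ) = orb G X * Nat.card G := by
  classical
  have := Fintype.ofFinite X
  have := Fintype.ofFinite G
  have := Fintype.ofFinite (MulAction.orbitRel.Quotient G X)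
  have h := MulAction.sum_card_fixedBy_eq_card_orbits_mul_card_group G X
  rw [finsum_eq_sum_of_fintype, orb, Nat.card_eq_fintype_card, Nat.card_eq_fintype_card]
  have h2 : ∀ g : G, (Nat.card (MulAction.fixedBy X g) : ℂ) =
    ((Fintype.card (MulAction.fixedBy X g) : ℕ) : ℂ) := fun g => by rw [Nat.card_eq_fintype_card]
  rw [Finset.sum_congr rfl fun g _ => h2 g]
  exact_mod_cast h

theorem thm : GL4.PCH := by
  intro G _ _ X _ _
  refine ⟨⟨X → ℂ, inferInstance, inferInstance, inferInstance, pr G X, pr_char G X⟩, ?_, ?_⟩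
  · intro K
    have h := burn K X
    have hK : (Nat.card K : ℂ) ≠ 0 := by
      have := Nat.card_pos (α := K)
      exact_mod_cast this.ne'
    rw [ip]
    have h2 : ∀ g : K, pc G X (g : G) * (starRingEnd ℂ) ((1 : G → ℂ) (g : G)) =
        (Nat.card (MulAction.fixedBy X g) : ℂ) := by
      intro g
      rw [Pi.one_apply, map_one, mul_one]
      rfl
    rw [finsum_congr h2, h]
    field_simp
  · intro Y _ _
    have h := burn G (X × Y)
    have hG : (Nat.card G : ℂ) ≠ 0 := by
      have := Nat.card_pos (α := G)
      exact_mod_cast this.ne'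
    rw [ip]
    have hc : Nat.card (⊤ : Subgroup G) = Nat.card G := Nat.card_congr Subgroup.topEquiv.toEquiv
    rw [hc]
    have h2 : ∑ᶠ g : (⊤ : Subgroup G), pc G X (g : G) * (starRingEnd ℂ) (pc G Y (g : G)) =
        ∑ᶠ g : G, (Nat.card (MulAction.fixedBy (X × Y) g) : ℂ) := by
      rw [← finsum_comp_equiv (Subgroup.topEquiv (G := G)).toEquiv]
      apply finsum_congr
      intro g
      have e : MulAction.fixedBy (X × Y) (g : G) ≃
          MulAction.fixedBy X (g : G) × MulAction.fixedBy Y (g : G) :=
        { toFun := fun z => ⟨⟨z.1.1, congrArg Prod.fst z.2⟩, ⟨z.1.2, congrArg Prod.snd z.2⟩⟩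
          invFun := fun z => ⟨(z.1.1, z.2.1), Prod.ext z.1.2 z.2.2⟩
          left_inv := fun z => rfl
          right_inv := fun z => rfl }
      have hh : (Subgroup.topEquiv (G := G)).toEquiv g = (g : G) := rfl
      rw [hh, Nat.card_congr e, Nat.card_prod, pc, pc, Complex.conj_natCast, Nat.cast_mul]
    rw [h2, h]
    field_simp

end GL4.PkPCH
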