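import Pool.Agent.Helper79.GL4.GoalsA

/-!
# GL4: packet S5A (MP_27a5f8_al)
-/

namespace GL4.PkS5A

open Module Submodule

theorem thm : GL4.S5A := by
  intro F _ _ V _ _ _ K hn hK hT P hP k hk hkP hmod
  by_contra hk1
  obtain ⟨p, hp0, rfl⟩ := hP.exists_span
  -- `k v - v` is a multiple of `p`
  have hdiff : ∀ v, ∃ c : F, k v - v = c • p := by
    intro v
    have h := hmod v
    have h2 : k v - v ∈ (F ∙ p) := by
      rw [← Submodule.ker_mkQ (F ∙ p), LinearMap.mem_ker, map_sub, sub_eq_zero]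
      exact h
    obtain ⟨c, hc⟩ := mem_span_singleton.1 h2
    exact ⟨c, hc.symm⟩
  -- a functional with value `1` at `p`
  obtain ⟨φ, hφ⟩ : ∃ φ : Module.Dual F V, φ p = 1 := by
    obtain ⟨f, hf, -⟩ := Submodule.exists_le_ker_of_notMem (p := (⊥ : Submodule F V)) (v := p)
      (by rwa [Submodule.mem_bot])
    refine ⟨(f p)⁻¹ • f, ?_⟩
    rw [LinearMap.smul_apply, smul_eq_mul, inv_mul_cancel₀ hf]
  obtain ⟨f, hf⟩ : ∃ f : Module.Dual F V, ∀ v, k v = v + f v • p := by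
    refine ⟨φ ∘ₗ ((k : V →ₗ[F] V) - LinearMap.id), fun v => ?_⟩
    obtain ⟨c, hc⟩ := hdiff v
    have h1 : (φ ∘ₗ ((k : V →ₗ[F] V) - LinearMap.id)) v = φ (k v - v) := rfl
    rw [h1, hc, map_smul, hφ, smul_eq_mul, mul_one, ← hc]
    abel
  have hf0 : f ≠ 0 := by
    rintro rfl
    apply hk1
    ext v
    rw [hf v]
    simp
  have hfp : f p ≠ 0 := fun h0 => hT k hk ⟨hk1, f, p, h0, hf⟩
  -- a nonzero vector of the axis
  have hHy := hy_ker hf0
  have hbot : LinearMap.ker f ≠ ⊥ := by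
    intro h0
    rw [Hy, h0, finrank_bot] at hHy
    omega
  obtain ⟨w, hwf, hw0⟩ := exists_mem_ne_zero_of_ne_bot hbot
  obtain ⟨H', hH', -, hpH', hwH'⟩ := exists_hy_not_ge₂ (T := (⊥ : Submodule F V))
    (A := F ∙ p) (B := F ∙ w)
    (by rw [span_singleton_le_iff_mem, Submodule.mem_bot]; exact hp0)
    (by rw [span_singleton_le_iff_mem, Submodule.mem_bot]; exact hw0)
  have hpf : ¬ (F ∙ p) ≤ LinearMap.ker f := by
    rw [span_singleton_le_iff_mem, LinearMap.mem_ker]; exact hfp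
  obtain ⟨g, hg, hgp, hgH⟩ := hK (F ∙ p) (LinearMap.ker f) (F ∙ p) H' hP hHy hP hH' hpf hpH'
  obtain ⟨c, hc⟩ : ∃ c : F, g p = c • p := by
    have : g p ∈ (F ∙ p) := by
      rw [← hgp]; exact apply_mem_im (mem_span_singleton_self p)
    obtain ⟨c, hc⟩ := mem_span_singleton.1 this
    exact ⟨c, hc.symm⟩
  have hc0 : c ≠ 0 := by
    rintro rfl
    rw [zero_smul] at hc
    exact hp0 (g.map_eq_zero_iff.1 hc)
  have hgg : ∀ v, g (g⁻¹ v) = v := fun v => g.apply_symm_apply v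
  have hgg' : ∀ v, g⁻¹ (g v) = v := fun v => g.symm_apply_apply v
  have hkk : ∀ v, k (k⁻¹ v) = v := fun v => k.apply_symm_apply v
  have hginvp : g⁻¹ p = c⁻¹ • p := by
    have h1 : g⁻¹ (g p) = p := hgg' p
    rw [hc, map_smul] at h1
    rw [← h1, smul_smul, inv_mul_cancel₀ hc0, one_smul, h1]
  -- the functional of `k' = g k g⁻¹`
  let f' : Module.Dual F V := c • (f ∘ₗ ((g⁻¹ : V ≃ₗ[F] V) : V →ₗ[F] V))
  have hf'v : ∀ v, f' v = c * f (g⁻¹ v) := fun v => rfl
  have hk' : ∀ v, (g * k * g⁻¹) v = v + f' v • p := by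
    intro v
    rw [LinearEquiv.mul_apply, LinearEquiv.mul_apply, hf (g⁻¹ v), map_add, map_smul, hgg, hc,
      smul_smul, hf'v, mul_comm]
  have hf'p : f' p = f p := by
    rw [hf'v, hginvp, map_smul, smul_eq_mul, ← mul_assoc, mul_inv_cancel₀ hc0, one_mul]
  have hne : f' - f ≠ 0 := by
    intro h0
    apply hwH'
    rw [span_singleton_le_iff_mem, ← hgH, mem_im, LinearMap.mem_ker]
    have h1 : f' w = f w := by
      have := LinearMap.congr_fun h0 w
      rwa [LinearMap.sub_apply, LinearMap.zero_apply, sub_eq_zero] at this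
    rw [hf'v, LinearMap.mem_ker.1 hwf] at h1
    exact (mul_eq_zero.1 h1).resolve_left hc0
  have ht : ∀ v, (g * k * g⁻¹ * k⁻¹) v = v + (f' - f) v • p := by
    intro v
    have h1 : k⁻¹ v + f (k⁻¹ v) • p = v := by rw [← hf, hkk]
    have h2 : (f' - f) v = (f' - f) (k⁻¹ v) := by
      conv_lhs => rw [← h1]
      rw [map_add, map_smul, LinearMap.sub_apply f' f p, hf'p, sub_self, smul_zero, add_zero]
    rw [LinearEquiv.mul_apply, hk', h2, LinearMap.sub_apply, sub_smul]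
    have h3 : k⁻¹ v + f' (k⁻¹ v) • p =
        (k⁻¹ v + f (k⁻¹ v) • p) + (f' (k⁻¹ v) • p - f (k⁻¹ v) • p) := by abel
    rw [h3, h1]
  refine hT (g * k * g⁻¹ * k⁻¹)
    (K.mul_mem (K.mul_mem (K.mul_mem hg hk) (K.inv_mem hg)) (K.inv_mem hk)) ⟨?_, f' - f, p, ?_, ht⟩
  · intro h1
    apply hne
    ext v
    have := ht v
    rw [h1] at this
    have h2 : (f' - f) v • p = 0 := by
      have h3 : v = v + (f' - f) v • p := this
      exact (left_eq_add.1 h3)
    rw [smul_eq_zero] at h2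
    exact h2.resolve_right hp0
  · rw [LinearMap.sub_apply, hf'p, sub_self]

end GL4.PkS5A
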